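import Pool.Agent.Helper11.PC.Defs

/-! # Project PC (MP_1f931d_al): packet FDER -/

namespace Pool.Agent.Helper19.PC

universe u v

open Pool.Agent.Helper11.PC

/-- The affine permutation `x ↦ ρ(y) x + lam y`. -/
def affPerm {Y : Type v} {M : Type u} [AddCommGroup M] (ρ : FreeGroup Y →* AddMonoid.End M)
    (lam : Y → M) (y : Y) : Equiv.Perm M where
  toFun x := ρ (FreeGroup.of y) x + lam y
  invFun x := ρ (FreeGroup.of y)⁻¹ (x - lam y)
  left_inv x := by
    have h : (ρ (FreeGroup.of y)⁻¹ * ρ (FreeGroup.of y)) x = x := by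
      rw [← map_mul, inv_mul_cancel, map_one]; rfl
    simpa using h
  right_inv x := by
    have h : (ρ (FreeGroup.of y) * ρ (FreeGroup.of y)⁻¹) (x - lam y) = x - lam y := by
      rw [← map_mul, mul_inv_cancel, map_one]; rfl
    have h' : ρ (FreeGroup.of y) (ρ (FreeGroup.of y)⁻¹ (x - lam y)) = x - lam y := h
    change ρ (FreeGroup.of y) (ρ (FreeGroup.of y)⁻¹ (x - lam y)) + lam y = x
    rw [h']; abel

/-- **FDER.** Derivations on free groups with given values on the generators. -/
theorem fder (Y : Type v) (M : Type u) [AddCommGroup M] : FreeDer Y M := by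
  intro ρ lam
  let Φ : FreeGroup Y →* Equiv.Perm M := FreeGroup.lift (affPerm ρ lam)
  have key : ∀ (g : FreeGroup Y) (x : M), Φ g x = ρ g x + Φ g 0 := by
    intro g
    induction g using FreeGroup.induction_on with
    | C1 => intro x; simp
    | of y =>
      intro x
      simp [Φ, affPerm]
    | inv_of y _ =>
      intro x
      have h1 : Φ (FreeGroup.of y)⁻¹ = (affPerm ρ lam y)⁻¹ := by simp [Φ]
      have h2 : ∀ z : M, (affPerm ρ lam y)⁻¹ z = ρ (FreeGroup.of y)⁻¹ (z - lam y) := fun z => rfl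
      rw [h1, h2, h2, ← map_add]
      congr 1
      abel
    | mul a b ha hb =>
      intro x
      have h1 : ∀ z : M, Φ (a * b) z = Φ a (Φ b z) := fun z => by rw [map_mul]; rfl
      have h2 : ρ (a * b) x = ρ a (ρ b x) := by rw [map_mul]; rfl
      rw [h1, h1, h2, ha (Φ b x), hb x, ha (Φ b 0), map_add, add_assoc]
  refine ⟨fun g => Φ g 0, fun y => ?_, fun g h => ?_⟩
  · simp [Φ, affPerm]
  · have h1 : Φ (g * h) 0 = Φ g (Φ h 0) := by rw [map_mul]; rfl
    change Φ (g * h) 0 = Φ g 0 + ρ g (Φ h 0)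
    rw [h1, key g (Φ h 0), add_comm]

end Pool.Agent.Helper19.PC
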